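import Pool.Agent.TH625.LOG.Main

/-!
# An asphericity test for labelled oriented graphs from the Alexander module

Definitions (`Pool.Agent.TH625.LOG.Core`, `.Tree`, `.Met`, `.Main`):

* `LOG V E` (labelled oriented graph), `L.rel e = x_ini x_lab x_ter⁻¹ x_lab⁻¹`, `L.G` the group with
  generators `V` and relators `L.rel e`, `L.gen v = x_v`;
* the 2-cell of `e` with base point `1` has the four sides `L.sv e k` (the generator) and `L.sg e k`
  (the initial point), `k : Fin 4`: `(ini, 1)`, `(lab, x_ini)`, `(lab, 1)`, `(ter, x_lab)`, passed
  in the directions `sgn k = 1, 1, -1, -1`; the 2-cells of the universal covering are the pairs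
  `(e, h)`, its edges the pairs `(v, g)` (from `g` to `g x_v`), `L.side (e, h) k` is
  `(L.sv e k, h * L.sg e k)` and `L.bdry` is the boundary operator `C₂ → C₁`;
* `L.FreeSides`, `L.Folds` (reducibility of closed diagrams);
* `L.AlexCocycle ε t s`: the maps `(l, y) ↦ (l + ε, t y + s v l)` of `ℤ × ℝ` satisfy the relations;
* `L.corner ε t s m y e k`: the image of the point `(m e, y e)` under the inverse of the initial
  point of the side `k`;
* `L.MetabelianTest`: for suitable parameters every 2-cell has a side whose corner is
  lexicographically smaller than all other corners at sides with the same generator;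
* `L.Conn` (connected), `L.ContractibleWith v₀`: `L ∪ f`, `∂f = x_{v₀}`, is contractible (trivial
  fundamental group, injective integral boundary operator).
-/

set_option autoImplicit false

namespace Pool.Agent.Results.MP_75ccdc_gt.AlexanderTest

open Pool.Agent.TH625.LOG

/-- Let `L` be the complex of a finite labelled oriented graph that passes the metabelian test.
Then every nonempty finite set of 2-cells of the universal covering has a free side, every closed
diagram is reducible and the boundary operator `C₂ → C₁` of the universal covering is injective,
i.e. `π₂(L) = 0`.  If the graph is a tree, `L` becomes contractible by adding one 2-cell. -/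
theorem result (V E : Type) [Fintype V] [DecidableEq V] [Fintype E] (L : LOG V E)
    (h : L.MetabelianTest) :
    (L.FreeSides ∧ L.Folds ∧ ∀ x, L.bdry x = 0 → x = 0) ∧
      (L.Conn → Fintype.card V = Fintype.card E + 1 → ∀ v₀ : V, L.ContractibleWith v₀) := by
  obtain ⟨ρ, -, ho⟩ := orderedTest_of_metabelian L h
  have hf := freeSides_of_ordered L ρ ho
  exact ⟨⟨hf, folds L hf, bdry_inj L hf⟩, contractibleWith L⟩

end Pool.Agent.Results.MP_75ccdc_gt.AlexanderTest
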